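import Pool.Agent.Lib.QG.Final
import Pool.Agent.Lib.QG.NI5

/-!
# MP_2e6874_co: the excluded minors for the class of quaternary gammoids

A gammoid is (isomorphic to) a restriction of a strict gammoid, a matroid is quaternary if it is
representable over a field with four elements. Up to isomorphism there are exactly fifteen excluded minors
for the class of the quaternary gammoids: `U_{2,6}`, `U_{4,6}`, `P_6`, the matroid obtained from `P_8` by
relaxing both circuit-hyperplanes, `M(K_4)`, the affine plane of order three without two points and its
dual, two matroids of rank three with eight elements and their duals, and four matroids of rank four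
with eight elements.
-/

set_option autoImplicit false

namespace Pool.Agent.Results.MP_2e6874_co.QuaternaryGammoids

open QG

theorem result :
    (∀ (α : Type) (M : Matroid α), ExMin M ↔ ∃ i : Fin 15, Typ i M) ∧
    (∀ i : Fin 15, ∃ (α : Type) (M : Matroid α), Typ i M) ∧
    (∀ (i j : Fin 15) (α β : Type) (M : Matroid α) (N : Matroid β), Typ i M → Typ j N →
      (MIso M N ↔ i = j)) := by
  simp only [typ_iff]
  exact ⟨fun α M => (final_exMin α M).trans (bad15_iff M), fun i => ty_exists i,
    fun _ _ _ _ _ _ hM hN => ⟨fun h => ty_ne hM hN h, fun h => by
      subst h
      exact ty_unique _ hM hN⟩⟩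

end Pool.Agent.Results.MP_2e6874_co.QuaternaryGammoids
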